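import Mathlib

namespace Pool.Agent.Results.MP_1940b6_co.FullyTransitive

/-- An abstract polyhedron (abstract polytope of rank 3) on the partially ordered set `P`. -/
structure AbstractPolyhedron (P : Type) [PartialOrder P] where
  rank : P → ℤ
  rank_strictMono : StrictMono rank
  rank_range : Set.range rank = {-1, 0, 1, 2, 3}
  unique_least : ∃! F : P, ∀ G : P, F ≤ G
  unique_greatest : ∃! F : P, ∀ G : P, G ≤ F
  flag_card : ∀ Φ : Flag P, (Φ : Set P).encard = 5
  diamond : ∀ F G : P, F ≤ G → rank G = rank F + 2 →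
    {H : P | rank H = rank F + 1 ∧ F ≤ H ∧ H ≤ G}.encard = 2
  strongly_flag_connected : ∀ Φ Ψ : Flag P, Relation.ReflTransGen
    (fun A B : Flag P => ((A : Set P) \ (B : Set P)).encard = 1 ∧
      ((B : Set P) \ (A : Set P)).encard = 1 ∧
      (Φ : Set P) ∩ (Ψ : Set P) ⊆ (A : Set P) ∧ (Φ : Set P) ∩ (Ψ : Set P) ⊆ (B : Set P)) Φ Ψ

/-- Equivelar of type `{p, q}`: every 2-face is a `p`-gon (it has `p` vertices and `p` edges)
and every vertex-figure is a `q`-gon (the vertex lies on `q` edges and `q` 2-faces). -/
def AbstractPolyhedron.IsEquivelar {P : Type} [PartialOrder P] (X : AbstractPolyhedron P)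
    (p q : ℕ) : Prop :=
  (∀ F : P, X.rank F = 2 → {v : P | X.rank v = 0 ∧ v ≤ F}.encard = p ∧
    {e : P | X.rank e = 1 ∧ e ≤ F}.encard = p) ∧
  (∀ v : P, X.rank v = 0 → {e : P | X.rank e = 1 ∧ v ≤ e}.encard = q ∧
    {F : P | X.rank F = 2 ∧ v ≤ F}.encard = q)

/-- The automorphism group is transitive on the faces of each rank. -/
def AbstractPolyhedron.IsFullyTransitive {P : Type} [PartialOrder P]
    (X : AbstractPolyhedron P) : Prop :=
  ∀ F G : P, X.rank F = X.rank G → ∃ φ : P ≃o P, φ F = G

/-- A duality: an order reversing bijection of `P` onto itself. -/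
def IsDuality {P : Type} [PartialOrder P] (δ : P ≃ P) : Prop :=
  ∀ F G : P, F ≤ G ↔ δ G ≤ δ F

/-! ### The construction -/

/-- The faces: `vtx s x` are the `2n` vertices, `edge k p q` the `2n²` edges,
`fac t y` the `2n` two-faces. -/
inductive Fc (n : ℕ) (i : ZMod n) : Type
  | bot : Fc n i
  | vtx (s : Bool) (x : ZMod n) : Fc n i
  | edge (k : Bool) (p q : ZMod n) : Fc n i
  | fac (t : Bool) (y : ZMod n) : Fc n i
  | top : Fc n i
  deriving DecidableEq

namespace Fc

variable {n : ℕ} {i : ZMod n}

/-- index of the endpoint of class `s` of the edge with coordinates `p, q` -/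
def vi (s : Bool) (p q : ZMod n) : ZMod n := if s then q else p

/-- index of the 2-face of class `t` containing the edge `k, p, q` -/
def fi (i : ZMod n) (t k : Bool) (p q : ZMod n) : ZMod n :=
  if t then (p - q - if k then i else 0) else (p + q - if k then 1 else 0)

def le : Fc n i → Fc n i → Prop
  | bot, _ => True
  | _, top => True
  | vtx s x, vtx s' x' => s = s' ∧ x = x'
  | vtx s x, edge _ p q => vi s p q = x
  | vtx _ _, fac _ _ => True
  | edge k p q, edge k' p' q' => k = k' ∧ p = p' ∧ q = q'
  | edge k p q, fac t y => fi i t k p q = y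
  | fac t y, fac t' y' => t = t' ∧ y = y'
  | _, _ => False

instance : PartialOrder (Fc n i) where
  le := le
  le_refl a := by cases a <;> simp [le]
  le_trans a b c hab hbc := by
    change le a b at hab
    change le b c at hbc
    cases a <;> cases b <;> cases c <;> simp_all [le]
  le_antisymm a b hab hba := by
    change le a b at hab
    change le b a at hba
    cases a <;> cases b <;> simp_all [le]

theorem bot_le' (a : Fc n i) : bot ≤ a := by change le _ _; cases a <;> trivial
theorem le_top' (a : Fc n i) : a ≤ top := by change le _ _; cases a <;> trivial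
theorem vtx_le_bot (s x) : ¬ (vtx s x : Fc n i) ≤ bot := fun h => h
theorem vtx_le_vtx (s x s' x') : (vtx s x : Fc n i) ≤ vtx s' x' ↔ s = s' ∧ x = x' := Iff.rfl
theorem vtx_le_edge (s x k p q) : (vtx s x : Fc n i) ≤ edge k p q ↔ vi s p q = x := Iff.rfl
theorem vtx_le_fac (s x t y) : (vtx s x : Fc n i) ≤ fac t y := trivial
theorem edge_le_bot (k p q) : ¬ (edge k p q : Fc n i) ≤ bot := fun h => h
theorem edge_le_vtx (k p q s x) : ¬ (edge k p q : Fc n i) ≤ vtx s x := fun h => h
theorem edge_le_edge (k p q k' p' q') :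
    (edge k p q : Fc n i) ≤ edge k' p' q' ↔ k = k' ∧ p = p' ∧ q = q' := Iff.rfl
theorem edge_le_fac (k p q t y) : (edge k p q : Fc n i) ≤ fac t y ↔ fi i t k p q = y := Iff.rfl
theorem fac_le_bot (t y) : ¬ (fac t y : Fc n i) ≤ bot := fun h => h
theorem fac_le_vtx (t y s x) : ¬ (fac t y : Fc n i) ≤ vtx s x := fun h => h
theorem fac_le_edge (t y k p q) : ¬ (fac t y : Fc n i) ≤ edge k p q := fun h => h
theorem fac_le_fac (t y t' y') : (fac t y : Fc n i) ≤ fac t' y' ↔ t = t' ∧ y = y' := Iff.rfl
theorem top_le_bot : ¬ (top : Fc n i) ≤ bot := fun h => h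
theorem top_le_vtx (s x) : ¬ (top : Fc n i) ≤ vtx s x := fun h => h
theorem top_le_edge (k p q) : ¬ (top : Fc n i) ≤ edge k p q := fun h => h
theorem top_le_fac (t y) : ¬ (top : Fc n i) ≤ fac t y := fun h => h

attribute [simp] bot_le' le_top' vtx_le_bot vtx_le_vtx vtx_le_edge vtx_le_fac edge_le_bot
  edge_le_vtx edge_le_edge edge_le_fac fac_le_bot fac_le_vtx fac_le_edge fac_le_fac
  top_le_bot top_le_vtx top_le_edge top_le_fac

def rk : Fc n i → ℤ
  | bot => -1
  | vtx _ _ => 0
  | edge _ _ _ => 1
  | fac _ _ => 2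
  | top => 3

@[simp] theorem rk_bot : rk (bot : Fc n i) = -1 := rfl
@[simp] theorem rk_vtx (s x) : rk (vtx s x : Fc n i) = 0 := rfl
@[simp] theorem rk_edge (k p q) : rk (edge k p q : Fc n i) = 1 := rfl
@[simp] theorem rk_fac (t y) : rk (fac t y : Fc n i) = 2 := rfl
@[simp] theorem rk_top : rk (top : Fc n i) = 3 := rfl

theorem rk_strictMono : StrictMono (rk : Fc n i → ℤ) := by
  intro a b hab
  have h1 : a ≤ b := hab.le
  have h2 : ¬ b ≤ a := fun h => absurd (lt_of_lt_of_le hab h) (lt_irrefl _)
  cases a <;> cases b <;> simp_all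

theorem rk_range : Set.range (rk : Fc n i → ℤ) = {-1, 0, 1, 2, 3} := by
  ext z
  constructor
  · rintro ⟨a, rfl⟩
    cases a <;> simp
  · rintro (rfl | rfl | rfl | rfl | rfl)
    · exact ⟨bot, rfl⟩
    · exact ⟨vtx false 0, rfl⟩
    · exact ⟨edge false 0 0, rfl⟩
    · exact ⟨fac false 0, rfl⟩
    · exact ⟨top, rfl⟩

theorem exists_least : ∃! F : Fc n i, ∀ G, F ≤ G :=
  ⟨bot, fun G => bot_le' G, fun y hy => le_antisymm (hy bot) (bot_le' y)⟩

theorem exists_greatest : ∃! F : Fc n i, ∀ G, G ≤ F :=
  ⟨top, fun G => le_top' G, fun y hy => le_antisymm (le_top' y) (hy top)⟩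

/-- The chain attached to an edge and a choice of one endpoint class and one face class. -/
def chain (k : Bool) (p q : ZMod n) (s t : Bool) : Set (Fc n i) :=
  {bot, vtx s (vi s p q), edge k p q, fac t (fi i t k p q), top}

theorem mem_bot (k p q s t) : (bot : Fc n i) ∈ chain k p q s t := by simp [chain]
theorem mem_top (k p q s t) : (top : Fc n i) ∈ chain k p q s t := by simp [chain]
theorem mem_vtx (k p q s t s' x) :
    (vtx s' x : Fc n i) ∈ chain k p q s t ↔ s' = s ∧ x = vi s p q := by simp [chain]
theorem mem_edge (k p q s t k' p' q') :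
    (edge k' p' q' : Fc n i) ∈ chain k p q s t ↔ k' = k ∧ p' = p ∧ q' = q := by simp [chain]
theorem mem_fac (k p q s t t' y) :
    (fac t' y : Fc n i) ∈ chain k p q s t ↔ t' = t ∧ y = fi i t k p q := by simp [chain]

theorem chain_isChain (k : Bool) (p q : ZMod n) (s t : Bool) :
    IsChain (· ≤ ·) (chain (i := i) k p q s t) := by
  intro a ha b hb hab
  simp only [chain, Set.mem_insert_iff, Set.mem_singleton_iff] at ha hb
  rcases ha with rfl | rfl | rfl | rfl | rfl <;> rcases hb with rfl | rfl | rfl | rfl | rfl <;>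
    simp

theorem chain_max (k : Bool) (p q : ZMod n) (s t : Bool) (S : Set (Fc n i))
    (hS : IsChain (· ≤ ·) S) (h : chain (i := i) k p q s t ⊆ S) :
    chain (i := i) k p q s t = S := by
  apply Set.Subset.antisymm h
  intro y hy
  have hv := hS.total (h (show vtx s (vi s p q) ∈ _ by simp [chain])) hy
  have he := hS.total (h (show edge k p q ∈ _ by simp [chain])) hy
  have hf := hS.total (h (show fac t (fi i t k p q) ∈ _ by simp [chain])) hy
  simp only [chain, Set.mem_insert_iff, Set.mem_singleton_iff]
  clear hS h hy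
  cases y
  · simp
  · simp at hv ⊢
    grind
  · simp at he ⊢
    grind
  · simp at hf ⊢
    grind
  · simp

/-- The flags of the polyhedron. -/
def mk (k : Bool) (p q : ZMod n) (s t : Bool) : Flag (Fc n i) where
  carrier := chain k p q s t
  Chain' := chain_isChain k p q s t
  max_chain' := fun S hS h => chain_max k p q s t S hS h

@[simp] theorem coe_mk (k : Bool) (p q : ZMod n) (s t : Bool) :
    ((mk k p q s t : Flag (Fc n i)) : Set (Fc n i)) = chain k p q s t := rfl

theorem mem_mk (k : Bool) (p q : ZMod n) (s t : Bool) (x : Fc n i) :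
    x ∈ (mk k p q s t : Flag (Fc n i)) ↔ x = bot ∨ x = vtx s (vi s p q) ∨ x = edge k p q ∨
      x = fac t (fi i t k p q) ∨ x = top := Iff.rfl

theorem exists_edge_between (s : Bool) (x : ZMod n) (t : Bool) (y : ZMod n) :
    ∃ p q : ZMod n, vi s p q = x ∧ fi i t false p q = y := by
  cases s <;> cases t
  · exact ⟨x, y - x, by simp [vi], by simp [fi]⟩
  · exact ⟨x, x - y, by simp [vi], by simp [fi]⟩
  · exact ⟨y - x, x, by simp [vi], by simp [fi]⟩
  · exact ⟨y + x, x, by simp [vi], by simp [fi]⟩

theorem flag_eq (Φ : Flag (Fc n i)) : ∃ k p q s t, Φ = mk k p q s t := by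
  have hmem : ∀ a : Fc n i, a ∈ Φ ↔ ∀ ⦃b⦄, b ∈ Φ → a ≤ b ∨ b ≤ a :=
    fun a => Flag.mem_iff_forall_le_or_ge
  have hcomp : ∀ {a b : Fc n i}, a ∈ Φ → b ∈ Φ → a ≤ b ∨ b ≤ a := fun ha hb => (hmem _).1 ha hb
  have hbot : bot ∈ Φ := (hmem _).2 fun b _ => Or.inl (bot_le' b)
  have htop : top ∈ Φ := (hmem _).2 fun b _ => Or.inr (le_top' b)
  -- choose a vertex and a face class compatible with `Φ`
  have hv : ∃ s x, ∀ s' x', vtx s' x' ∈ Φ → s' = s ∧ x' = x := by
    by_cases h : ∃ s x, vtx s x ∈ Φ
    · obtain ⟨s, x, h⟩ := h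
      refine ⟨s, x, fun s' x' h' => ?_⟩
      have := hcomp h h'
      simp at this
      grind
    · exact ⟨false, 0, fun s' x' h' => absurd ⟨s', x', h'⟩ h⟩
  have hf : ∃ t y, ∀ t' y', fac t' y' ∈ Φ → t' = t ∧ y' = y := by
    by_cases h : ∃ t y, fac t y ∈ Φ
    · obtain ⟨t, y, h⟩ := h
      refine ⟨t, y, fun t' y' h' => ?_⟩
      have := hcomp h h'
      simp at this
      grind
    · exact ⟨false, 0, fun t' y' h' => absurd ⟨t', y', h'⟩ h⟩
  have he : ∃ k p q, edge k p q ∈ Φ := by
    by_contra hne
    obtain ⟨s, x, hv⟩ := hv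
    obtain ⟨t, y, hf⟩ := hf
    obtain ⟨p, q, hp, hq⟩ := exists_edge_between (i := i) s x t y
    refine hne ⟨false, p, q, (hmem _).2 fun b hb => ?_⟩
    cases b with
    | bot => simp
    | vtx s' x' => obtain ⟨rfl, rfl⟩ := hv _ _ hb; simp [hp]
    | edge k p q => exact absurd ⟨k, p, q, hb⟩ hne
    | fac t' y' => obtain ⟨rfl, rfl⟩ := hf _ _ hb; simp [hq]
    | top => simp
  obtain ⟨k, p, q, he⟩ := he
  have hedge : ∀ k' p' q', edge k' p' q' ∈ Φ → k' = k ∧ p' = p ∧ q' = q := by
    intro k' p' q' h'
    have := hcomp he h'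
    simp at this
    grind
  have hv2 : ∃ s, vtx s (vi s p q) ∈ Φ := by
    by_contra hne
    have hno : ∀ s x, vtx s x ∉ Φ := by
      intro s x h
      have := hcomp h he
      simp at this
      subst this
      exact hne ⟨s, h⟩
    refine hne ⟨false, (hmem _).2 fun b hb => ?_⟩
    cases b with
    | bot => simp
    | vtx s' x' => exact absurd hb (hno _ _)
    | edge k' p' q' => obtain ⟨rfl, rfl, rfl⟩ := hedge _ _ _ hb; simp
    | fac t' y' => simp
    | top => simp
  have hf2 : ∃ t, fac t (fi i t k p q) ∈ Φ := by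
    by_contra hne
    have hno : ∀ t y, fac t y ∉ Φ := by
      intro t y h
      have := hcomp h he
      simp at this
      subst this
      exact hne ⟨t, h⟩
    refine hne ⟨false, (hmem _).2 fun b hb => ?_⟩
    cases b with
    | bot => simp
    | vtx s' x' => simp
    | edge k' p' q' => obtain ⟨rfl, rfl, rfl⟩ := hedge _ _ _ hb; simp
    | fac t' y' => exact absurd hb (hno _ _)
    | top => simp
  obtain ⟨s, hs⟩ := hv2
  obtain ⟨t, ht⟩ := hf2
  refine ⟨k, p, q, s, t, ?_⟩
  have hsub : chain (i := i) k p q s t ⊆ (Φ : Set (Fc n i)) := by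
    intro z hz
    simp only [chain, Set.mem_insert_iff, Set.mem_singleton_iff] at hz
    rcases hz with rfl | rfl | rfl | rfl | rfl
    · exact hbot
    · exact hs
    · exact he
    · exact ht
    · exact htop
  exact (SetLike.coe_injective (chain_max k p q s t _ Φ.chain_le hsub)).symm

theorem chain_encard (k : Bool) (p q : ZMod n) (s t : Bool) :
    (chain (i := i) k p q s t).encard = 5 := by
  have : chain (i := i) k p q s t =
      (({bot, vtx s (vi s p q), edge k p q, fac t (fi i t k p q), top} : Finset (Fc n i)) :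
        Set (Fc n i)) := by
    simp [chain]
  rw [this, Set.encard_coe_eq_coe_finsetCard]
  simp

theorem diamond (F G : Fc n i) (h : F ≤ G) (hr : rk G = rk F + 2) :
    {H : Fc n i | rk H = rk F + 1 ∧ F ≤ H ∧ H ≤ G}.encard = 2 := by
  cases F <;> cases G <;> simp at hr h ⊢
  · rename_i k p q
    have : {H : Fc n i | rk H = 0 ∧ H ≤ edge k p q} = {vtx false p, vtx true q} := by
      ext z
      cases z with
      | vtx s x => cases s <;> simp [vi, eq_comm]
      | _ => simp
    rw [this, Set.encard_pair (by simp)]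
  · rename_i s x t y
    have : ∃ e₀ e₁ : ZMod n × ZMod n, {H : Fc n i | rk H = 1 ∧ vtx s x ≤ H ∧ H ≤ fac t y} =
        {edge false e₀.1 e₀.2, edge true e₁.1 e₁.2} := by
      cases s <;> cases t
      · refine ⟨(x, y - x), (x, y + 1 - x), ?_⟩
        ext z
        cases z with
        | edge k p q => cases k <;> simp [vi, fi] <;> grind
        | _ => simp
      · refine ⟨(x, x - y), (x, x - y - i), ?_⟩
        ext z
        cases z with
        | edge k p q => cases k <;> simp [vi, fi] <;> grind
        | _ => simp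
      · refine ⟨(y - x, x), (y + 1 - x, x), ?_⟩
        ext z
        cases z with
        | edge k p q => cases k <;> simp [vi, fi] <;> grind
        | _ => simp
      · refine ⟨(y + x, x), (y + x + i, x), ?_⟩
        ext z
        cases z with
        | edge k p q => cases k <;> simp [vi, fi] <;> grind
        | _ => simp
    obtain ⟨e₀, e₁, this⟩ := this
    rw [this, Set.encard_pair (by simp)]
  · rename_i k p q
    have : {H : Fc n i | rk H = 2 ∧ edge k p q ≤ H} =
        {fac false (fi i false k p q), fac true (fi i true k p q)} := by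
      ext z
      cases z with
      | fac t y => cases t <;> simp [eq_comm]
      | _ => simp
    rw [this, Set.encard_pair (by simp)]

/-! ### Connectivity -/

/-- One step of a flag path all of whose flags contain `S`. -/
def Step (S : Set (Fc n i)) (A B : Flag (Fc n i)) : Prop :=
  ((A : Set (Fc n i)) \ (B : Set (Fc n i))).encard = 1 ∧
    ((B : Set (Fc n i)) \ (A : Set (Fc n i))).encard = 1 ∧
    S ⊆ (A : Set (Fc n i)) ∧ S ⊆ (B : Set (Fc n i))

def Conn (S : Set (Fc n i)) (A B : Flag (Fc n i)) : Prop := Relation.ReflTransGen (Step S) A B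

theorem Conn.symm {S : Set (Fc n i)} {A B : Flag (Fc n i)} (h : Conn S A B) : Conn S B A := by
  induction h with
  | refl => exact Relation.ReflTransGen.refl
  | tail _ h ih => exact Relation.ReflTransGen.head ⟨h.2.1, h.1, h.2.2.2, h.2.2.1⟩ ih

theorem Conn.trans {S : Set (Fc n i)} {A B C : Flag (Fc n i)} (h : Conn S A B)
    (h' : Conn S B C) : Conn S A C := Relation.ReflTransGen.trans h h'

theorem Conn.refl (S : Set (Fc n i)) (A : Flag (Fc n i)) : Conn S A A := Relation.ReflTransGen.refl

theorem diff_s (k : Bool) (p q : ZMod n) (s s' t : Bool) (h : s ≠ s') :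
    chain (i := i) k p q s t \ chain k p q s' t = {vtx s (vi s p q)} := by
  ext z
  simp only [chain, Set.mem_sdiff, Set.mem_insert_iff, Set.mem_singleton_iff]
  cases z <;> simp
  grind

theorem diff_t (k : Bool) (p q : ZMod n) (s t t' : Bool) (h : t ≠ t') :
    chain (i := i) k p q s t \ chain k p q s t' = {fac t (fi i t k p q)} := by
  ext z
  simp only [chain, Set.mem_sdiff, Set.mem_insert_iff, Set.mem_singleton_iff]
  cases z <;> simp
  grind

theorem diff_e (k k' : Bool) (p q p' q' : ZMod n) (s t : Bool) (h : k ≠ k')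
    (hv : vi s p q = vi s p' q') (hf : fi i t k p q = fi i t k' p' q') :
    chain (i := i) k p q s t \ chain k' p' q' s t = {edge k p q} := by
  ext z
  simp only [chain, Set.mem_sdiff, Set.mem_insert_iff, Set.mem_singleton_iff]
  cases z <;> simp
  · grind
  · grind
  · grind

theorem conn_s (S : Set (Fc n i)) (k : Bool) (p q : ZMod n) (s s' t : Bool)
    (h : S ⊆ chain k p q s t) (h' : S ⊆ chain k p q s' t) :
    Conn S (mk k p q s t) (mk k p q s' t) := by
  by_cases hs : s = s'
  · subst hs
    exact Conn.refl _ _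
  · refine Relation.ReflTransGen.single ⟨?_, ?_, h, h'⟩
    · rw [coe_mk, coe_mk, diff_s _ _ _ _ _ _ hs, Set.encard_singleton]
    · rw [coe_mk, coe_mk, diff_s _ _ _ _ _ _ (Ne.symm hs), Set.encard_singleton]

theorem conn_t (S : Set (Fc n i)) (k : Bool) (p q : ZMod n) (s t t' : Bool)
    (h : S ⊆ chain k p q s t) (h' : S ⊆ chain k p q s t') :
    Conn S (mk k p q s t) (mk k p q s t') := by
  by_cases hs : t = t'
  · subst hs
    exact Conn.refl _ _
  · refine Relation.ReflTransGen.single ⟨?_, ?_, h, h'⟩
    · rw [coe_mk, coe_mk, diff_t _ _ _ _ _ _ hs, Set.encard_singleton]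
    · rw [coe_mk, coe_mk, diff_t _ _ _ _ _ _ (Ne.symm hs), Set.encard_singleton]

theorem conn_e (S : Set (Fc n i)) (k k' : Bool) (p q p' q' : ZMod n) (s t : Bool) (hk : k ≠ k')
    (hv : vi s p q = vi s p' q') (hf : fi i t k p q = fi i t k' p' q')
    (h : S ⊆ chain k p q s t) (h' : S ⊆ chain k' p' q' s t) :
    Conn S (mk k p q s t) (mk k' p' q' s t) := by
  refine Relation.ReflTransGen.single ⟨?_, ?_, h, h'⟩
  · rw [coe_mk, coe_mk, diff_e _ _ _ _ _ _ _ _ hk hv hf, Set.encard_singleton]
  · rw [coe_mk, coe_mk, diff_e _ _ _ _ _ _ _ _ (Ne.symm hk) hv.symm hf.symm,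
      Set.encard_singleton]

theorem sub_v {S : Set (Fc n i)} {s : Bool} {x : ZMod n} (hS : S ⊆ {bot, vtx s x, top})
    (k : Bool) (p q : ZMod n) (t : Bool) (hx : vi s p q = x) : S ⊆ chain k p q s t := by
  intro z hz
  have := hS hz
  simp only [Set.mem_insert_iff, Set.mem_singleton_iff] at this
  simp only [chain, Set.mem_insert_iff, Set.mem_singleton_iff, hx]
  tauto

theorem sub_f {S : Set (Fc n i)} {t : Bool} {y : ZMod n} (hS : S ⊆ {bot, fac t y, top})
    (k : Bool) (p q : ZMod n) (s : Bool) (hy : fi i t k p q = y) : S ⊆ chain k p q s t := by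
  intro z hz
  have := hS hz
  simp only [Set.mem_insert_iff, Set.mem_singleton_iff] at this
  simp only [chain, Set.mem_insert_iff, Set.mem_singleton_iff, hy]
  tauto

/-- A relation by a unit step connects everything. -/
theorem conn_of_step [NeZero n] {S : Set (Fc n i)} (f : ZMod n → Flag (Fc n i)) (u v : ZMod n)
    (huv : u * v = 1) (h : ∀ x, Conn S (f x) (f (x + u))) (x y : ZMod n) :
    Conn S (f x) (f y) := by
  have key : ∀ m : ℕ, Conn S (f x) (f (x + m * u)) := by
    intro m
    induction m with
    | zero => simpa using Conn.refl _ _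
    | succ m ih =>
      have e : x + ((m + 1 : ℕ) : ZMod n) * u = (x + m * u) + u := by push_cast; ring
      rw [e]
      exact ih.trans (h _)
  have := key ((y - x) * v).val
  rw [ZMod.natCast_zmod_val] at this
  have e : x + (y - x) * v * u = y := by linear_combination (y - x) * huv
  rwa [e] at this

/-- vertex `u_p` -/
theorem conn_u [NeZero n] (hi : i * i = -1) (h : ZMod n) (h2 : 2 * h = 1)
    {S : Set (Fc n i)} {p : ZMod n} (hS : S ⊆ {bot, vtx false p, top}) (q q' : ZMod n) :
    Conn S (mk false p q false false) (mk false p q' false false) := by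
  refine conn_of_step (fun q => mk false p q false false) (1 + i) ((1 - i) * h)
    (by linear_combination h2 - h * hi) (fun q => ?_) q q'
  have hs : ∀ k q t, S ⊆ chain k p q false t := fun k q t => sub_v hS k p q t rfl
  refine (conn_e S false true p q p (q + 1) false false (by simp) rfl
    (by simp [fi]; ring) (hs _ _ _) (hs _ _ _)).trans ?_
  refine (conn_t S true p (q + 1) false false true (hs _ _ _) (hs _ _ _)).trans ?_
  refine (conn_e S true false p (q + 1) p (q + (1 + i)) false true (by simp) rfl
    (by simp [fi]; ring) (hs _ _ _) (hs _ _ _)).trans ?_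
  exact conn_t S false p (q + (1 + i)) false true false (hs _ _ _) (hs _ _ _)

/-- all flags at the vertex `u_p` -/
theorem conn_u_base [NeZero n] (hi : i * i = -1) (h : ZMod n) (h2 : 2 * h = 1)
    {S : Set (Fc n i)} {p : ZMod n} (hS : S ⊆ {bot, vtx false p, top}) (k : Bool) (q : ZMod n)
    (t : Bool) : Conn S (mk k p q false t) (mk false p 0 false false) := by
  have hs : ∀ k q t, S ⊆ chain k p q false t := fun k q t => sub_v hS k p q t rfl
  refine (conn_t S k p q false t false (hs _ _ _) (hs _ _ _)).trans ?_
  cases k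
  · exact conn_u hi h h2 hS q 0
  · refine (conn_e S true false p q p (q - 1) false false (by simp) rfl
      (by simp [fi]; ring) (hs _ _ _) (hs _ _ _)).trans ?_
    exact conn_u hi h h2 hS (q - 1) 0

/-- vertex `w_q` -/
theorem conn_w [NeZero n] (hi : i * i = -1) (h : ZMod n) (h2 : 2 * h = 1)
    {S : Set (Fc n i)} {q : ZMod n} (hS : S ⊆ {bot, vtx true q, top}) (p p' : ZMod n) :
    Conn S (mk false p q true false) (mk false p' q true false) := by
  refine conn_of_step (fun p => mk false p q true false) (1 - i) ((1 + i) * h)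
    (by linear_combination h2 - h * hi) (fun p => ?_) p p'
  have hs : ∀ k p t, S ⊆ chain k p q true t := fun k p t => sub_v hS k p q t rfl
  refine (conn_e S false true p q (p + 1) q true false (by simp) rfl
    (by simp [fi]; ring) (hs _ _ _) (hs _ _ _)).trans ?_
  refine (conn_t S true (p + 1) q true false true (hs _ _ _) (hs _ _ _)).trans ?_
  refine (conn_e S true false (p + 1) q (p + (1 - i)) q true true (by simp) rfl
    (by simp [fi]; ring) (hs _ _ _) (hs _ _ _)).trans ?_
  exact conn_t S false (p + (1 - i)) q true true false (hs _ _ _) (hs _ _ _)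

/-- all flags at the vertex `w_q` -/
theorem conn_w_base [NeZero n] (hi : i * i = -1) (h : ZMod n) (h2 : 2 * h = 1)
    {S : Set (Fc n i)} {q : ZMod n} (hS : S ⊆ {bot, vtx true q, top}) (k : Bool) (p : ZMod n)
    (t : Bool) : Conn S (mk k p q true t) (mk false 0 q true false) := by
  have hs : ∀ k p t, S ⊆ chain k p q true t := fun k p t => sub_v hS k p q t rfl
  refine (conn_t S k p q true t false (hs _ _ _) (hs _ _ _)).trans ?_
  cases k
  · exact conn_w hi h h2 hS p 0
  · refine (conn_e S true false p q (p - 1) q true false (by simp) rfl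
      (by simp [fi]; ring) (hs _ _ _) (hs _ _ _)).trans ?_
    exact conn_w hi h h2 hS (p - 1) 0

/-- all flags at the 2-face `A_r` -/
theorem conn_A_base [NeZero n] {S : Set (Fc n i)} {r : ZMod n}
    (hS : S ⊆ {bot, fac false r, top}) (k : Bool) (p q : ZMod n)
    (s : Bool) (hr : fi i false k p q = r) :
    Conn S (mk k p q s false) (mk false r 0 false false) := by
  have hs : ∀ k p q s, fi i false k p q = r → S ⊆ chain k p q s false :=
    fun k p q s h => sub_f hS k p q s h
  have main : ∀ x y : ZMod n, Conn S (mk false x (r - x) false false)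
      (mk false y (r - y) false false) := by
    refine conn_of_step (fun x => mk false x (r - x) false false) (-1) (-1) (by ring)
      (fun x => ?_)
    refine (conn_e S false true x (r - x) x (r - x + 1) false false (by simp) rfl
      (by simp [fi]; ring) (hs _ _ _ _ (by simp [fi])) (hs _ _ _ _ (by simp [fi]; ring))).trans ?_
    refine (conn_s S true x (r - x + 1) false true false (hs _ _ _ _ (by simp [fi]; ring))
      (hs _ _ _ _ (by simp [fi]; ring))).trans ?_
    refine (conn_e S true false x (r - x + 1) (x + -1) (r - (x + -1)) true false (by simp)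
      (by simp [vi]; ring) (by simp [fi]; ring) (hs _ _ _ _ (by simp [fi]; ring))
      (hs _ _ _ _ (by simp [fi]))).trans ?_
    exact conn_s S false (x + -1) (r - (x + -1)) true false false (hs _ _ _ _ (by simp [fi]))
      (hs _ _ _ _ (by simp [fi]))
  refine (conn_s S k p q s false false (hs _ _ _ _ hr) (hs _ _ _ _ hr)).trans ?_
  have main' : Conn S (mk false p (r - p) false false) (mk false r 0 false false) := by
    simpa using main p r
  cases k
  · have : q = r - p := by simp [fi] at hr; rw [← hr]; ring
    rw [this]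
    exact main'
  · have : q = r - p + 1 := by simp [fi] at hr; rw [← hr]; ring
    rw [this]
    refine (conn_e S true false p (r - p + 1) p (r - p) false false (by simp) rfl
      (by simp [fi]; ring) (hs _ _ _ _ (by simp [fi]; ring)) (hs _ _ _ _ (by simp [fi]))).trans
      main'

/-- all flags at the 2-face `B_r` -/
theorem conn_B_base [NeZero n] (hi : i * i = -1) {S : Set (Fc n i)} {r : ZMod n}
    (hS : S ⊆ {bot, fac true r, top}) (k : Bool) (p q : ZMod n)
    (s : Bool) (hr : fi i true k p q = r) :
    Conn S (mk k p q s true) (mk false r 0 false true) := by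
  have hs : ∀ k p q s, fi i true k p q = r → S ⊆ chain k p q s true :=
    fun k p q s h => sub_f hS k p q s h
  have main : ∀ x y : ZMod n, Conn S (mk false x (x - r) false true)
      (mk false y (y - r) false true) := by
    refine conn_of_step (fun x => mk false x (x - r) false true) (-i) i
      (by linear_combination -hi) (fun x => ?_)
    refine (conn_e S false true x (x - r) x (x - r - i) false true (by simp) rfl
      (by simp [fi]; ring) (hs _ _ _ _ (by simp [fi])) (hs _ _ _ _ (by simp [fi]; ring))).trans ?_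
    refine (conn_s S true x (x - r - i) false true true (hs _ _ _ _ (by simp [fi]; ring))
      (hs _ _ _ _ (by simp [fi]; ring))).trans ?_
    refine (conn_e S true false x (x - r - i) (x + -i) (x + -i - r) true true (by simp)
      (by simp [vi]; ring) (by simp [fi]; ring) (hs _ _ _ _ (by simp [fi]; ring))
      (hs _ _ _ _ (by simp [fi]))).trans ?_
    exact conn_s S false (x + -i) (x + -i - r) true false true (hs _ _ _ _ (by simp [fi]))
      (hs _ _ _ _ (by simp [fi]))
  refine (conn_s S k p q s false true (hs _ _ _ _ hr) (hs _ _ _ _ hr)).trans ?_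
  have main' : Conn S (mk false p (p - r) false true) (mk false r 0 false true) := by
    simpa using main p r
  cases k
  · have : q = p - r := by simp [fi] at hr; rw [← hr]; ring
    rw [this]
    exact main'
  · have : q = p - r - i := by simp [fi] at hr; rw [← hr]; ring
    rw [this]
    refine (conn_e S true false p (p - r - i) p (p - r) false true (by simp) rfl
      (by simp [fi]; ring) (hs _ _ _ _ (by simp [fi]; ring)) (hs _ _ _ _ (by simp [fi]))).trans
      main'

/-- every flag is joined to the base flag when nothing has to be kept -/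
theorem conn_base [NeZero n] (hi : i * i = -1) (h : ZMod n) (h2 : 2 * h = 1)
    {S : Set (Fc n i)} (hS : S ⊆ {bot, top}) (k : Bool) (p q : ZMod n)
    (s t : Bool) : Conn S (mk k p q s t) (mk false 0 0 false false) := by
  have hv : ∀ s x, S ⊆ {bot, vtx s x, top} := by
    intro s x z hz
    have := hS hz
    simp only [Set.mem_insert_iff, Set.mem_singleton_iff] at this ⊢
    tauto
  have hs : ∀ k p q s t, S ⊆ chain k p q s t := fun k p q s t => sub_v (hv s _) k p q t rfl
  refine (conn_s S k p q s false t (hs _ _ _ _ _) (hs _ _ _ _ _)).trans ?_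
  refine (conn_u_base hi h h2 (hv _ _) k q t).trans ?_
  refine (conn_s S false p 0 false true false (hs _ _ _ _ _) (hs _ _ _ _ _)).trans ?_
  refine (conn_w_base hi h h2 (hv _ _) false p false).trans ?_
  exact conn_s S false 0 0 true false false (hs _ _ _ _ _) (hs _ _ _ _ _)

theorem strongly_connected [NeZero n] (hi : i * i = -1) (h : ZMod n) (h2 : 2 * h = 1)
    (Φ Ψ : Flag (Fc n i)) : Conn ((Φ : Set (Fc n i)) ∩ (Ψ : Set (Fc n i))) Φ Ψ := by
  obtain ⟨k, p, q, s, t, rfl⟩ := flag_eq Φ
  obtain ⟨k', p', q', s', t', rfl⟩ := flag_eq Ψ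
  rw [coe_mk, coe_mk]
  set S := chain (i := i) k p q s t ∩ chain k' p' q' s' t' with hSdef
  have hS1 : S ⊆ chain k p q s t := Set.inter_subset_left
  have hS2 : S ⊆ chain k' p' q' s' t' := Set.inter_subset_right
  by_cases he : k = k' ∧ p = p' ∧ q = q'
  · obtain ⟨rfl, rfl, rfl⟩ := he
    have hmid : S ⊆ chain k p q s' t := by
      intro z hz
      have h1 := hS1 hz
      have h2 := hS2 hz
      clear_value S
      cases z <;>
        simp only [mem_bot, mem_top, mem_vtx, mem_edge, mem_fac, Set.mem_insert_iff,
          Set.mem_singleton_iff] at h1 h2 ⊢ <;> grind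
    exact (conn_s S k p q s s' t hS1 hmid).trans (conn_t S k p q s' t t' hmid hS2)
  · by_cases hv : s = s' ∧ vi s p q = vi s' p' q'
    · obtain ⟨rfl, hv⟩ := hv
      by_cases hf : t = t' ∧ fi i t k p q = fi i t' k' p' q'
      · obtain ⟨rfl, hf⟩ := hf
        refine conn_e S k k' p q p' q' s t ?_ hv hf hS1 hS2
        rintro rfl
        refine he ⟨rfl, ?_⟩
        cases s <;> cases t <;> simp [vi, fi] at hv hf <;> simp_all
      · have hS : S ⊆ {bot, vtx s (vi s p q), top} := by
          intro z hz
          have h1 := hS1 hz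
          have h2 := hS2 hz
          clear_value S
          cases z <;>
            simp only [mem_bot, mem_top, mem_vtx, mem_edge, mem_fac, Set.mem_insert_iff,
              Set.mem_singleton_iff] at h1 h2 ⊢ <;> grind
        cases s
        · have hpp : p = p' := hv
          subst hpp
          exact (conn_u_base hi h h2 hS k q t).trans (conn_u_base hi h h2 hS k' q' t').symm
        · have hpp : q = q' := hv
          subst hpp
          exact (conn_w_base hi h h2 hS k p t).trans (conn_w_base hi h h2 hS k' p' t').symm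
    · by_cases hf : t = t' ∧ fi i t k p q = fi i t' k' p' q'
      · obtain ⟨rfl, hf⟩ := hf
        have hS : S ⊆ {bot, fac t (fi i t k p q), top} := by
          intro z hz
          have h1 := hS1 hz
          have h2 := hS2 hz
          clear_value S
          cases z <;>
            simp only [mem_bot, mem_top, mem_vtx, mem_edge, mem_fac, Set.mem_insert_iff,
              Set.mem_singleton_iff] at h1 h2 ⊢ <;> grind
        cases t
        · exact (conn_A_base hS k p q s rfl).trans (conn_A_base hS k' p' q' s' hf.symm).symm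
        · exact (conn_B_base hi hS k p q s rfl).trans
            (conn_B_base hi hS k' p' q' s' hf.symm).symm
      · have hS : S ⊆ {bot, top} := by
          intro z hz
          have h1 := hS1 hz
          have h2 := hS2 hz
          clear_value S
          cases z <;>
            simp only [mem_bot, mem_top, mem_vtx, mem_edge, mem_fac, Set.mem_insert_iff,
              Set.mem_singleton_iff] at h1 h2 ⊢ <;> grind
        exact (conn_base hi h h2 hS k p q s t).trans (conn_base hi h h2 hS k' p' q' s' t').symm

/-! ### The polyhedron -/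

/-- The polyhedron with face set `Fc n i`. -/
def poly [NeZero n] (hi : i * i = -1) (h : ZMod n) (h2 : 2 * h = 1) :
    AbstractPolyhedron (Fc n i) where
  rank := rk
  rank_strictMono := rk_strictMono
  rank_range := rk_range
  unique_least := exists_least
  unique_greatest := exists_greatest
  flag_card := by
    intro Φ
    obtain ⟨k, p, q, s, t, rfl⟩ := flag_eq Φ
    exact chain_encard k p q s t
  diamond := diamond
  strongly_flag_connected := fun Φ Ψ => strongly_connected hi h h2 Φ Ψ

theorem encard_of_range [NeZero n] {S : Set (Fc n i)} (f : Bool × ZMod n → Fc n i)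
    (hf : Function.Injective f) (hS : S = Set.range f) : S.encard = ((2 * n : ℕ) : ℕ∞) := by
  rw [hS, ← Set.image_univ, hf.encard_image, Set.encard_univ, ENat.card_eq_coe_fintype_card]
  simp [ZMod.card]

theorem equivelar [NeZero n] (hi : i * i = -1) (h : ZMod n) (h2 : 2 * h = 1) :
    (poly hi h h2).IsEquivelar (2 * n) (2 * n) := by
  refine ⟨fun F hF => ?_, fun v hv => ?_⟩
  · change rk F = 2 at hF
    cases F <;> simp at hF
    rename_i t y
    refine ⟨encard_of_range (fun x => vtx x.1 x.2) (fun a b hab => by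
      simpa [Prod.ext_iff] using hab) ?_, ?_⟩
    · ext z
      change rk z = 0 ∧ z ≤ fac t y ↔ _
      cases z <;> simp
    · cases t
      · refine encard_of_range (fun x => edge x.1 x.2 (y - x.2 + if x.1 then 1 else 0))
          (fun a b hab => by simp at hab; exact Prod.ext hab.1 hab.2.1) ?_
        ext z
        change rk z = 1 ∧ z ≤ fac false y ↔ _
        cases z <;> simp [fi]
        grind
      · refine encard_of_range (fun x => edge x.1 x.2 (x.2 - y - if x.1 then i else 0))
          (fun a b hab => by simp at hab; exact Prod.ext hab.1 hab.2.1) ?_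
        ext z
        change rk z = 1 ∧ z ≤ fac true y ↔ _
        cases z <;> simp [fi]
        grind
  · change rk v = 0 at hv
    cases v <;> simp at hv
    rename_i s x
    refine ⟨?_, encard_of_range (fun x => fac x.1 x.2) (fun a b hab => by
      simpa [Prod.ext_iff] using hab) ?_⟩
    · cases s
      · refine encard_of_range (fun y => edge y.1 x y.2)
          (fun a b hab => by simp at hab; exact Prod.ext hab.1 hab.2) ?_
        ext z
        change rk z = 1 ∧ vtx false x ≤ z ↔ _
        cases z <;> simp [vi]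
        grind
      · refine encard_of_range (fun y => edge y.1 y.2 x)
          (fun a b hab => by simp at hab; exact Prod.ext hab.1 hab.2) ?_
        ext z
        change rk z = 1 ∧ vtx true x ≤ z ↔ _
        cases z <;> simp [vi]
        grind
    · ext z
      change rk z = 2 ∧ vtx s x ≤ z ↔ _
      cases z <;> simp

instance [NeZero n] : Finite (Fc n i) := by
  refine Finite.of_surjective (α := Fin 5 × Bool × ZMod n × ZMod n)
    (fun x => match x.1 with
      | 0 => bot
      | 1 => vtx x.2.1 x.2.2.1
      | 2 => edge x.2.1 x.2.2.1 x.2.2.2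
      | 3 => fac x.2.1 x.2.2.1
      | 4 => top) ?_
  intro z
  cases z with
  | bot => exact ⟨(0, false, 0, 0), rfl⟩
  | vtx s x => exact ⟨(1, s, x, 0), rfl⟩
  | edge k p q => exact ⟨(2, k, p, q), rfl⟩
  | fac t y => exact ⟨(3, t, y, 0), rfl⟩
  | top => exact ⟨(4, false, 0, 0), rfl⟩

/-- An order automorphism from a map that preserves and reflects the order. -/
noncomputable def isoOf [NeZero n] (f : Fc n i → Fc n i) (hf : ∀ a b, a ≤ b ↔ f a ≤ f b) :
    Fc n i ≃o Fc n i where
  toEquiv := Equiv.ofBijective f (Finite.injective_iff_bijective.1 fun a b hab =>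
    le_antisymm ((hf a b).2 hab.le) ((hf b a).2 hab.ge))
  map_rel_iff' := fun {a b} => (hf a b).symm

theorem isoOf_apply [NeZero n] (f : Fc n i → Fc n i) (hf : ∀ a b, a ≤ b ↔ f a ≤ f b) (x) :
    isoOf f hf x = f x := rfl

/-- translations -/
def tr (a b : ZMod n) : Fc n i → Fc n i
  | bot => bot
  | vtx s x => vtx s (x + if s then b else a)
  | edge k p q => edge k (p + a) (q + b)
  | fac t y => fac t (y + if t then a - b else a + b)
  | top => top

theorem tr_le (a b : ZMod n) (x y : Fc n i) : x ≤ y ↔ tr a b x ≤ tr a b y := by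
  cases x <;> cases y <;> simp [tr, vi, fi] <;> grind

/-- the automorphism exchanging the two kinds of edges -/
def sw : Fc n i → Fc n i
  | bot => bot
  | vtx s x => vtx s (-x)
  | edge k p q => edge (!k) (-p) (-q)
  | fac t y => fac t (-y - if t then i else 1)
  | top => top

theorem sw_le (x y : Fc n i) : x ≤ y ↔ sw x ≤ sw y := by
  cases x <;> cases y <;> simp [sw, vi, fi] <;> grind

/-- the automorphism exchanging the vertex classes and the face classes -/
def ro : Fc n i → Fc n i
  | bot => bot
  | vtx s x => vtx (!s) (if s then i * x else -i * x)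
  | edge k p q => edge k (i * q) (-i * p)
  | fac t y => fac (!t) (if t then -i * y else i * y)
  | top => top

theorem ro_le (hi : i * i = -1) (x y : Fc n i) : x ≤ y ↔ ro x ≤ ro y := by
  cases x <;> cases y <;> simp [ro, vi, fi] <;> grind

/-- two faces are in one orbit of the automorphism group -/
def Orb (x y : Fc n i) : Prop := ∃ φ : Fc n i ≃o Fc n i, φ x = y

theorem Orb.symm {x y : Fc n i} (h : Orb x y) : Orb y x := by
  obtain ⟨φ, rfl⟩ := h
  exact ⟨φ.symm, φ.symm_apply_apply x⟩

theorem Orb.trans {x y z : Fc n i} (h : Orb x y) (h' : Orb y z) : Orb x z := by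
  obtain ⟨φ, rfl⟩ := h
  obtain ⟨ψ, rfl⟩ := h'
  exact ⟨φ.trans ψ, rfl⟩

theorem Orb.of [NeZero n] (f : Fc n i → Fc n i) (hf : ∀ a b, a ≤ b ↔ f a ≤ f b) (x : Fc n i) :
    Orb x (f x) := ⟨isoOf f hf, rfl⟩

theorem orb_vtx [NeZero n] (hi : i * i = -1) (s : Bool) (x : ZMod n) :
    Orb (vtx s x : Fc n i) (vtx false 0) := by
  have key : ∀ x : ZMod n, Orb (vtx false x : Fc n i) (vtx false 0) := by
    intro x
    have := Orb.of (tr (-x) 0) (tr_le (-x) 0) (vtx false x : Fc n i)
    simpa [tr] using this
  cases s
  · exact key x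
  · exact (Orb.of ro (ro_le hi) (vtx true x : Fc n i)).trans (by simpa [ro] using key (i * x))

theorem orb_edge [NeZero n] (k : Bool) (p q : ZMod n) :
    Orb (edge k p q : Fc n i) (edge false 0 0) := by
  have key : ∀ p q : ZMod n, Orb (edge false p q : Fc n i) (edge false 0 0) := by
    intro p q
    have := Orb.of (tr (-p) (-q)) (tr_le (-p) (-q)) (edge false p q : Fc n i)
    simpa [tr] using this
  cases k
  · exact key p q
  · exact (Orb.of sw sw_le (edge true p q : Fc n i)).trans (by simpa [sw] using key (-p) (-q))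

theorem orb_fac [NeZero n] (hi : i * i = -1) (t : Bool) (y : ZMod n) :
    Orb (fac t y : Fc n i) (fac false 0) := by
  have key : ∀ y : ZMod n, Orb (fac false y : Fc n i) (fac false 0) := by
    intro y
    have := Orb.of (tr (-y) 0) (tr_le (-y) 0) (fac false y : Fc n i)
    simpa [tr] using this
  cases t
  · exact key y
  · exact (Orb.of ro (ro_le hi) (fac true y : Fc n i)).trans (by simpa [ro] using key (-i * y))

theorem fullyTransitive [NeZero n] (hi : i * i = -1) (h : ZMod n) (h2 : 2 * h = 1) :
    (poly hi h h2).IsFullyTransitive := by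
  intro F G hFG
  change rk F = rk G at hFG
  change Orb F G
  cases F <;> cases G <;> simp at hFG
  · exact ⟨OrderIso.refl _, rfl⟩
  · exact (orb_vtx hi _ _).trans (orb_vtx hi _ _).symm
  · exact (orb_edge _ _ _).trans (orb_edge _ _ _).symm
  · exact (orb_fac hi _ _).trans (orb_fac hi _ _).symm
  · exact ⟨OrderIso.refl _, rfl⟩

/-! ### Self-duality -/

/-- a duality -/
def du (h : ZMod n) : Fc n i → Fc n i
  | bot => top
  | vtx s x => fac (!s) (-(1 + i) * x)
  | edge k p q => edge k (-(1 + i) * h * fi i false k p q) ((1 + i) * h * fi i true k p q)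
  | fac t y => vtx t (if t then (1 + i) * h * y else -(1 + i) * h * y)
  | top => bot

/-- the inverse duality -/
def dv (h : ZMod n) : Fc n i → Fc n i
  | bot => top
  | vtx s x => fac s (if s then (1 - i) * x else -(1 - i) * x)
  | edge k p q => edge k (h * (-(1 - i) * p + (1 - i) * q + if k then 1 + i else 0))
      (h * (-(1 - i) * p - (1 - i) * q + if k then 1 - i else 0))
  | fac t y => vtx (!t) (-(1 - i) * h * y)
  | top => bot

theorem dv_du (hi : i * i = -1) (h : ZMod n) (h2 : 2 * h = 1) (x : Fc n i) :
    dv h (du h x) = x := by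
  cases x with
  | bot => rfl
  | vtx s x => simp [du, dv]; grind
  | edge k p q => cases k <;> simp [du, dv, fi] <;> grind
  | fac t y => cases t <;> simp [du, dv] <;> grind
  | top => rfl

theorem du_dv (hi : i * i = -1) (h : ZMod n) (h2 : 2 * h = 1) (x : Fc n i) :
    du h (dv h x) = x := by
  cases x with
  | bot => rfl
  | vtx s x => cases s <;> simp [du, dv] <;> grind
  | edge k p q => cases k <;> simp [du, dv, fi] <;> grind
  | fac t y => simp [du, dv]; grind
  | top => rfl

theorem du_le (hi : i * i = -1) (h : ZMod n) (h2 : 2 * h = 1) (x y : Fc n i)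
    (hxy : x ≤ y) : du h y ≤ du h x := by
  cases x <;> cases y <;> simp [du, vi, fi] at hxy ⊢ <;> grind

theorem dv_le (hi : i * i = -1) (h : ZMod n) (h2 : 2 * h = 1) (x y : Fc n i)
    (hxy : x ≤ y) : dv h y ≤ dv h x := by
  cases x <;> cases y <;> simp [dv, vi, fi] at hxy ⊢ <;> grind

/-- the duality as a bijection -/
def duEquiv (hi : i * i = -1) (h : ZMod n) (h2 : 2 * h = 1) : Fc n i ≃ Fc n i where
  toFun := du h
  invFun := dv h
  left_inv := dv_du hi h h2
  right_inv := du_dv hi h h2

theorem duEquiv_isDuality (hi : i * i = -1) (h : ZMod n) (h2 : 2 * h = 1) :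
    IsDuality (duEquiv hi h h2) := by
  intro F G
  refine ⟨fun hFG => du_le hi h h2 F G hFG, fun hFG => ?_⟩
  have := dv_le hi h h2 _ _ hFG
  change dv h (du h F) ≤ dv h (du h G) at this
  rwa [dv_du hi h h2, dv_du hi h h2] at this

/-! ### No polarity -/

theorem rk_mem (x : Fc n i) : -1 ≤ rk x ∧ rk x ≤ 3 := by cases x <;> simp

theorem dual_lt {δ : Fc n i ≃ Fc n i} (hδ : IsDuality δ) {x y : Fc n i} (hxy : x < y) :
    rk (δ y) < rk (δ x) := by
  apply rk_strictMono
  refine lt_of_le_of_ne ((hδ x y).1 hxy.le) fun h => ?_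
  exact hxy.ne (δ.injective h.symm)

theorem lt_of (x y : Fc n i) (h : x ≤ y) (h' : x ≠ y) : x < y := lt_of_le_of_ne h h'

theorem dual_rank {δ : Fc n i ≃ Fc n i} (hδ : IsDuality δ) (k : Bool) (p q : ZMod n)
    (s t : Bool) : rk (δ (vtx s (vi s p q))) = 2 ∧ rk (δ (edge k p q)) = 1 ∧
      rk (δ (fac t (fi i t k p q))) = 0 := by
  have h1 := dual_lt hδ (lt_of bot (vtx s (vi s p q)) (by simp) (by simp))
  have h2 := dual_lt hδ (lt_of (vtx s (vi s p q)) (edge k p q) (by simp) (by simp))
  have h3 := dual_lt hδ (lt_of (edge k p q) (fac t (fi i t k p q)) (by simp) (by simp))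
  have h4 := dual_lt hδ (lt_of (fac t (fi i t k p q)) top (by simp) (by simp))
  have h5 := rk_mem (δ bot)
  have h6 := rk_mem (δ top)
  omega

theorem dual_vtx {δ : Fc n i ≃ Fc n i} (hδ : IsDuality δ) (s : Bool) (x : ZMod n) :
    ∃ t y, δ (vtx s x) = fac t y := by
  obtain ⟨p, q, hp, -⟩ := exists_edge_between (i := i) s x false 0
  have := (dual_rank hδ false p q s false).1
  rw [hp] at this
  cases h : δ (vtx s x) with
  | fac t y => exact ⟨t, y, rfl⟩
  | _ => rw [h] at this; simp at this

theorem dual_edge {δ : Fc n i ≃ Fc n i} (hδ : IsDuality δ) (k : Bool) (p q : ZMod n) :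
    ∃ k' p' q', δ (edge k p q) = edge k' p' q' := by
  have := (dual_rank hδ k p q false false).2.1
  cases h : δ (edge k p q) with
  | edge k' p' q' => exact ⟨k', p', q', rfl⟩
  | _ => rw [h] at this; simp at this

theorem dual_fac {δ : Fc n i ≃ Fc n i} (hδ : IsDuality δ) (t : Bool) (y : ZMod n) :
    ∃ s x, δ (fac t y) = vtx s x := by
  obtain ⟨p, q, -, hp⟩ := exists_edge_between (i := i) false 0 t y
  have := (dual_rank hδ false p q false t).2.2
  rw [hp] at this
  cases h : δ (fac t y) with
  | vtx s x => exact ⟨s, x, rfl⟩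
  | _ => rw [h] at this; simp at this

/-- A function on `ZMod n` invariant under a unit step is constant. -/
theorem const_of_step [NeZero n] {α : Type} (f : ZMod n → α) (u v : ZMod n) (huv : u * v = 1)
    (h : ∀ x, f (x + u) = f x) (x y : ZMod n) : f x = f y := by
  have key : ∀ m : ℕ, f (x + m * u) = f x := by
    intro m
    induction m with
    | zero => simp
    | succ m ih =>
      have e : x + ((m + 1 : ℕ) : ZMod n) * u = (x + m * u) + u := by push_cast; ring
      rw [e, h, ih]
  have := key ((y - x) * v).val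
  rw [ZMod.natCast_zmod_val] at this
  have e : x + (y - x) * v * u = y := by linear_combination (y - x) * huv
  rw [e] at this
  exact this.symm

/-- A duality cannot send the class `u` to the class `A` and the class `A` to the class `u`. -/
theorem no_aux [NeZero n] (hn : 1 < n) (hi : i * i = -1) (h : ZMod n) (h2 : 2 * h = 1)
    {δ : Fc n i ≃ Fc n i} (hδ : IsDuality δ)
    (hu : ∀ x, ∃ y, δ (vtx false x) = fac false y) (hw : ∀ x, ∃ y, δ (vtx true x) = fac true y)
    (hA : ∀ y, ∃ x, δ (fac false y) = vtx false x) (hB : ∀ y, ∃ x, δ (fac true y) = vtx true x) :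
    False := by
  choose α hα using hu
  choose β hβ using hw
  choose γ hγ using hA
  choose ε hε using hB
  choose κ P Q hE using dual_edge hδ
  -- incidences
  have e1 : ∀ k p q, P k p q = γ (fi i false k p q) := by
    intro k p q
    have := (hδ (edge k p q) (fac false (fi i false k p q))).1 (by simp)
    rw [hE, hγ] at this
    simpa [vi] using this
  have e2 : ∀ k p q, Q k p q = ε (fi i true k p q) := by
    intro k p q
    have := (hδ (edge k p q) (fac true (fi i true k p q))).1 (by simp)
    rw [hE, hε] at this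
    simpa [vi] using this
  have e3 : ∀ k p q, fi i false (κ k p q) (P k p q) (Q k p q) = α p := by
    intro k p q
    have := (hδ (vtx false p) (edge k p q)).1 (by simp [vi])
    rw [hE, hα] at this
    simpa using this
  have e4 : ∀ k p q, fi i true (κ k p q) (P k p q) (Q k p q) = β q := by
    intro k p q
    have := (hδ (vtx true q) (edge k p q)).1 (by simp [vi])
    rw [hE, hβ] at this
    simpa using this
  have inj : ∀ k p q k' p' q', κ k p q = κ k' p' q' → P k p q = P k' p' q' →
      Q k p q = Q k' p' q' → k = k' := by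
    intro k p q k' p' q' h1 h2 h3
    have : δ (edge k p q) = δ (edge k' p' q') := by rw [hE, hE, h1, h2, h3]
    have := δ.injective this
    simp at this
    exact this.1
  -- the edge kind changes along r1
  have a1 : ∀ p q, κ true p (q + 1) ≠ κ false p q := by
    intro p q hk
    have hP : P true p (q + 1) = P false p q := by
      rw [e1, e1]; congr 1; simp [fi]; ring
    have hQ : Q true p (q + 1) = Q false p q := by
      have h3 := e3 true p (q + 1)
      have h4 := e3 false p q
      rw [hk, hP] at h3
      simp only [fi] at h3 h4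
      simp at h3 h4
      linear_combination h3 - h4
    exact absurd (inj _ _ _ _ _ _ hk hP hQ) (by simp)
  have a2 : ∀ p q, κ true p (q - i) ≠ κ false p q := by
    intro p q hk
    have hQ : Q true p (q - i) = Q false p q := by
      rw [e2, e2]; congr 1; simp [fi]; ring
    have hP : P true p (q - i) = P false p q := by
      have h3 := e3 true p (q - i)
      have h4 := e3 false p q
      rw [hk, hQ] at h3
      simp only [fi] at h3 h4
      simp at h3 h4
      linear_combination h3 - h4
    exact absurd (inj _ _ _ _ _ _ hk hP hQ) (by simp)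
  have a3 : ∀ p q, κ true (p + 1) q ≠ κ false p q := by
    intro p q hk
    have hP : P true (p + 1) q = P false p q := by
      rw [e1, e1]; congr 1; simp [fi]; ring
    have hQ : Q true (p + 1) q = Q false p q := by
      have h3 := e4 true (p + 1) q
      have h4 := e4 false p q
      rw [hk, hP] at h3
      simp only [fi] at h3 h4
      simp at h3 h4
      linear_combination h4 - h3
    exact absurd (inj _ _ _ _ _ _ hk hP hQ) (by simp)
  have bool2 : ∀ a b c : Bool, a ≠ b → a ≠ c → b = c := by decide
  -- the edge kind is preserved or reversed globally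
  have b1 : ∀ p q q', κ false p q = κ false p q' := by
    intro p q q'
    refine const_of_step (fun q => κ false p q) (1 + i) ((1 - i) * h)
      (by linear_combination h2 - h * hi) (fun q => ?_) q q'
    have h3 := a1 p q
    have h4 := a2 p (q + (1 + i))
    have e : q + (1 + i) - i = q + 1 := by ring
    rw [e] at h4
    exact bool2 _ _ _ h4 h3
  have b2 : ∀ p q p' q', κ false p q = κ false p' q' := by
    intro p q p' q'
    rw [b1 p q q']
    refine const_of_step (fun p => κ false p q') 1 1 (by ring) (fun p => ?_) p p'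
    have h3 := a3 p q'
    have h4 := a1 (p + 1) (q' - 1)
    rw [sub_add_cancel] at h4
    change κ false (p + 1) q' = κ false p q'
    rw [b1 (p + 1) q' (q' - 1)]
    exact bool2 _ _ _ h4 h3
  obtain ⟨c, hc⟩ : ∃ c, ∀ p q, κ false p q = c := ⟨κ false 0 0, fun p q => b2 _ _ _ _⟩
  have hc' : ∀ p q, κ true p q = !c := by
    intro p q
    have h3 := a1 p (q - 1)
    rw [sub_add_cancel, hc] at h3
    cases c <;> simpa using h3
  obtain ⟨a, ha⟩ : ∃ a : ZMod n, a = if c then 1 else 0 := ⟨_, rfl⟩
  have ha' : (1 - a) = if !c then 1 else 0 := by cases c <;> simp [ha]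
  have haa : (2 * a - 1) * (2 * a - 1) = 1 := by cases c <;> simp [ha] <;> ring
  have f1 : ∀ p q, γ (p + q) + ε (p - q) - a = α p := by
    intro p q
    have := e3 false p q
    rw [e1, e2, hc] at this
    simpa [fi, ha] using this
  have f2 : ∀ p q, γ (p + q) - ε (p - q) - a * i = β q := by
    intro p q
    have := e4 false p q
    rw [e1, e2, hc] at this
    simpa [fi, ha] using this
  have f3 : ∀ p q, γ (p + q - 1) + ε (p - q - i) - (1 - a) = α p := by
    intro p q
    have := e3 true p q
    rw [e1, e2, hc'] at this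
    rw [ha']
    simpa [fi] using this
  have f4 : ∀ p q, γ (p + q - 1) - ε (p - q - i) - (1 - a) * i = β q := by
    intro p q
    have := e4 true p q
    rw [e1, e2, hc'] at this
    rw [ha']
    simpa [fi] using this
  have g1 : ∀ x, γ (x + 1) - γ x = (2 * a - 1) * (1 + i) * h := by
    intro x
    have h3 := f1 (x + 1) 0
    have h4 := f2 (x + 1) 0
    have h5 := f3 (x + 1) 0
    have h6 := f4 (x + 1) 0
    simp only [add_zero, add_sub_cancel_right] at h3 h4 h5 h6
    linear_combination h * (h3 + h4 - h5 - h6) - (γ (x + 1) - γ x) * h2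
  have g2 : ∀ y, ε y - ε (y - 1) = (2 * a - 1) * (1 + i) * h := by
    intro y
    have h3 := f1 y 0
    have h4 := f1 y 1
    have h5 := g1 y
    simp only [add_zero, sub_zero] at h3
    linear_combination h3 - h4 + h5
  have g3 : ∀ (m : ℕ) (y : ZMod n), ε y - ε (y - m) = m * ((2 * a - 1) * (1 + i) * h) := by
    intro m y
    induction m with
    | zero => simp
    | succ m ih =>
      have h3 := g2 (y - m)
      have e : y - ((m + 1 : ℕ) : ZMod n) = y - m - 1 := by push_cast; ring
      rw [e]
      push_cast
      linear_combination ih + h3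
  have g4 := g3 i.val 0
  rw [ZMod.natCast_zmod_val] at g4
  have h3 := f1 0 0
  have h4 := f2 0 0
  have h5 := f3 0 0
  have h6 := f4 0 0
  simp only [add_zero, sub_zero, zero_sub] at h3 h4 h5 h6 g4
  have g5 : 2 * (i * ((2 * a - 1) * (1 + i) * h)) = (2 * a - 1) * (1 - i) := by
    linear_combination h3 - h4 - h5 + h6 - 2 * g4
  have g6 : (1 : ZMod n) = 0 := by
    grind
  have : Fact (1 < n) := ⟨hn⟩
  exact one_ne_zero g6

theorem classes_v {δ : Fc n i ≃ Fc n i} (hδ : IsDuality δ) :
    ∃ c, (∀ x, ∃ y, δ (vtx false x) = fac c y) ∧ (∀ x, ∃ y, δ (vtx true x) = fac (!c) y) := by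
  choose T Y hT using dual_vtx hδ
  have key : ∀ p q, T false p ≠ T true q := by
    intro p q hpq
    obtain ⟨k', p', q', hE⟩ := dual_edge hδ false p q
    have h1 := (hδ (vtx false p) (edge false p q)).1 (by simp [vi])
    have h2 := (hδ (vtx true q) (edge false p q)).1 (by simp [vi])
    rw [hE, hT] at h1 h2
    simp only [edge_le_fac] at h1 h2
    have : δ (vtx false p) = δ (vtx true q) := by
      rw [hT, hT, ← h1, ← h2, hpq]
    have := δ.injective this
    simp at this
  refine ⟨T false 0, fun x => ⟨Y false x, ?_⟩, fun x => ⟨Y true x, ?_⟩⟩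
  · have h1 := key 0 0
    have h2 := key x 0
    have : T false x = T false 0 := by
      cases h : T false x <;> cases h' : T false 0 <;> cases h'' : T true 0 <;> simp_all
    rw [hT, this]
  · have h1 := key 0 x
    have : T true x = !(T false 0) := by
      cases h : T true x <;> cases h' : T false 0 <;> simp_all
    rw [hT, this]

theorem classes_f (h : ZMod n) (h2 : 2 * h = 1) {δ : Fc n i ≃ Fc n i} (hδ : IsDuality δ) :
    ∃ d, (∀ y, ∃ x, δ (fac false y) = vtx d x) ∧ (∀ y, ∃ x, δ (fac true y) = vtx (!d) x) := by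
  choose T Y hT using dual_fac hδ
  have key : ∀ r s, T false r ≠ T true s := by
    intro r s hpq
    obtain ⟨k', p', q', hE⟩ := dual_edge hδ false ((r + s) * h) ((r - s) * h)
    have h1 := (hδ (edge false ((r + s) * h) ((r - s) * h)) (fac false r)).1
      (by simp [fi]; linear_combination r * h2)
    have h3 := (hδ (edge false ((r + s) * h) ((r - s) * h)) (fac true s)).1
      (by simp [fi]; linear_combination s * h2)
    rw [hE, hT] at h1 h3
    simp only [vtx_le_edge] at h1 h3
    have : δ (fac false r) = δ (fac true s) := by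
      rw [hT, hT, ← h1, ← h3, hpq]
    have := δ.injective this
    simp at this
  refine ⟨T false 0, fun x => ⟨Y false x, ?_⟩, fun x => ⟨Y true x, ?_⟩⟩
  · have h1 := key 0 0
    have h2 := key x 0
    have : T false x = T false 0 := by
      cases h : T false x <;> cases h' : T false 0 <;> cases h'' : T true 0 <;> simp_all
    rw [hT, this]
  · have h1 := key 0 x
    have : T true x = !(T false 0) := by
      cases h : T true x <;> cases h' : T false 0 <;> simp_all
    rw [hT, this]

theorem no_polarity [NeZero n] (hn : 1 < n) (hi : i * i = -1) (h : ZMod n) (h2 : 2 * h = 1)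
    {δ : Fc n i ≃ Fc n i} (hδ : IsDuality δ) (hinv : ∀ x, δ (δ x) = x) : False := by
  obtain ⟨c, hc1, hc2⟩ := classes_v hδ
  obtain ⟨d, hd1, hd2⟩ := classes_f h h2 hδ
  obtain ⟨y, hy⟩ := hc1 0
  have h3 := hinv (vtx false 0)
  rw [hy] at h3
  cases c
  · obtain ⟨x, hx⟩ := hd1 y
    rw [hx] at h3
    simp at h3
    obtain ⟨rfl, -⟩ := h3
    exact no_aux hn hi h h2 hδ hc1 hc2 hd1 hd2
  · obtain ⟨x, hx⟩ := hd2 y
    rw [hx] at h3
    simp at h3
    obtain ⟨rfl, -⟩ := h3
    have hδ' : IsDuality ((isoOf ro (ro_le hi)).toEquiv.trans δ) := by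
      intro F G
      exact (ro_le hi F G).trans (hδ _ _)
    refine no_aux hn hi h h2 hδ' (fun x => ?_) (fun x => ?_) (fun x => ?_) (fun x => ?_)
    · exact hc2 (-i * x)
    · exact hc1 (i * x)
    · exact hd2 (i * x)
    · exact hd1 (-i * x)

end Fc

/-- For every odd `n > 1` such that `-1` is a square modulo `n` (for instance `n = 5`) there is a
finite fully transitive self-dual polyhedron, equivelar of type `{2n, 2n}`, without polarity. -/
theorem result (n : ℕ) (hn : 1 < n) (hodd : Odd n) (hsq : IsSquare (-1 : ZMod n)) :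
    ∃ (P : Type) (_ : Finite P) (_ : PartialOrder P) (X : AbstractPolyhedron P),
      X.IsEquivelar (2 * n) (2 * n) ∧ X.IsFullyTransitive ∧ (∃ δ : P ≃ P, IsDuality δ) ∧
        ¬ ∃ δ : P ≃ P, IsDuality δ ∧ ∀ F : P, δ (δ F) = F := by
  have : NeZero n := ⟨by omega⟩
  obtain ⟨i, hi⟩ := hsq
  obtain ⟨m, hm⟩ := hodd
  have h2 : (2 : ZMod n) * ((m : ZMod n) + 1) = 1 := by
    have : ((2 * m + 1 : ℕ) : ZMod n) = 0 := by rw [← hm]; simp
    push_cast at this
    linear_combination this
  exact ⟨Fc n i, inferInstance, inferInstance, Fc.poly hi.symm _ h2, Fc.equivelar hi.symm _ h2,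
    Fc.fullyTransitive hi.symm _ h2, ⟨Fc.duEquiv hi.symm _ h2, Fc.duEquiv_isDuality hi.symm _ h2⟩,
    fun ⟨_, hδ, hinv⟩ => Fc.no_polarity hn hi.symm _ h2 hδ hinv⟩

/-- The case `n = 5`: the answer to the question is negative. -/
theorem answer : ¬ ∀ (P : Type) (_ : PartialOrder P) (X : AbstractPolyhedron P) (p q : ℕ),
    X.IsEquivelar p q → (∃ δ : P ≃ P, IsDuality δ) →
      ∃ δ : P ≃ P, IsDuality δ ∧ ∀ F : P, δ (δ F) = F := by
  intro H
  obtain ⟨P, _, _, X, h1, -, h3, h4⟩ := result 5 (by norm_num) (by decide) (by decide)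
  exact h4 (H P _ X _ _ h1 h3)

end Pool.Agent.Results.MP_1940b6_co.FullyTransitive
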